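import Pool.Agent.H238.PH.Spec

/-!
# Project PH, task G: reduction to the complex plane
-/

set_option autoImplicit false

namespace Pool.Agent.H784.PH

open MeasureTheory Set Filter Topology
open scoped ContDiff RealInnerProductSpace ComplexConjugate
open Pool.Agent.H238.PH

/-- the scalar linear second order equation with zero data has only the zero solution -/
theorem lin_unique (C : ℝ) (κ : ℝ → ℝ) (hκ : Continuous κ) (x y : ℝ → ℝ)
    (hx : ∀ t, HasDerivAt x (y t) t) (hy : ∀ t, HasDerivAt y (-(C * x t) - κ t * y t) t)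
    (h0 : x 0 = 0) (h1 : y 0 = 0) : ∀ t, x t = 0 ∧ y t = 0 := by
  intro T
  obtain ⟨S, hS⟩ : ∃ S : ℝ, S = |T| + 1 := ⟨_, rfl⟩
  have hS0 : 0 < S := by rw [hS]; positivity
  obtain ⟨M, hM⟩ : ∃ M, ∀ t ∈ Icc (-S) S, ‖κ t‖ ≤ M :=
    isCompact_Icc.exists_bound_of_continuousOn hκ.continuousOn
  have hM0 : 0 ≤ M := (norm_nonneg _).trans (hM 0 ⟨by linarith, hS0.le⟩)
  let F : ℝ → ℝ × ℝ → ℝ × ℝ := fun t p => (p.2, -(C * p.1) - κ t * p.2)
  have hK0 : 0 ≤ 1 + |C| + M := by positivity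
  have hL : ∀ t ∈ Ioo (-S) S, LipschitzOnWith (Real.toNNReal (1 + |C| + M)) (F t) univ := by
    intro t ht
    refine LipschitzOnWith.of_dist_le_mul (fun p _ q _ => ?_)
    have hk : |κ t| ≤ M := hM t ⟨ht.1.le, ht.2.le⟩
    rw [Real.coe_toNNReal _ hK0]
    change max |p.2 - q.2| |(-(C * p.1) - κ t * p.2) - (-(C * q.1) - κ t * q.2)| ≤
      (1 + |C| + M) * max |p.1 - q.1| |p.2 - q.2|
    obtain ⟨m, hm⟩ : ∃ m, m = max |p.1 - q.1| |p.2 - q.2| := ⟨_, rfl⟩
    rw [← hm]
    have hm1 : |p.1 - q.1| ≤ m := by rw [hm]; exact le_max_left _ _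
    have hm2 : |p.2 - q.2| ≤ m := by rw [hm]; exact le_max_right _ _
    have hm0 : 0 ≤ m := (abs_nonneg _).trans hm1
    refine max_le ?_ ?_
    · refine hm2.trans ?_
      have : 0 ≤ (|C| + M) * m := by positivity
      linarith
    · have e1 : (-(C * p.1) - κ t * p.2) - (-(C * q.1) - κ t * q.2) =
          -(C * (p.1 - q.1)) - κ t * (p.2 - q.2) := by ring
      rw [e1]
      have h2 : |-(C * (p.1 - q.1)) - κ t * (p.2 - q.2)| ≤
          |C| * |p.1 - q.1| + |κ t| * |p.2 - q.2| := by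
        refine (abs_sub _ _).trans ?_
        rw [abs_neg, abs_mul, abs_mul]
      have h3 : |C| * |p.1 - q.1| ≤ |C| * m := mul_le_mul_of_nonneg_left hm1 (abs_nonneg _)
      have h4 : |κ t| * |p.2 - q.2| ≤ M * m := mul_le_mul hk hm2 (abs_nonneg _) hM0
      linarith
  have hcx : Continuous x := continuous_iff_continuousAt.mpr fun t => (hx t).continuousAt
  have hcy : Continuous y := continuous_iff_continuousAt.mpr fun t => (hy t).continuousAt
  have hE : EqOn (fun t => (x t, y t)) (fun _ => ((0 : ℝ), (0 : ℝ))) (Icc (-S) S) := by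
    refine ODE_solution_unique_of_mem_Icc (v := F) (s := fun _ => univ) (t₀ := 0) hL
      ⟨by linarith, hS0⟩ (hcx.prodMk hcy).continuousOn ?_ (fun _ _ => mem_univ _)
      continuousOn_const ?_ (fun _ _ => mem_univ _) ?_
    · intro t _
      exact (hx t).prodMk (hy t)
    · intro t _
      have e : F t (0, 0) = 0 := by
        change ((0 : ℝ), -(C * 0) - κ t * 0) = 0
        rw [mul_zero, mul_zero, neg_zero, sub_zero]
        rfl
      change HasDerivAt (fun _ => ((0 : ℝ), (0 : ℝ))) (F t (0, 0)) t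
      rw [e]
      exact hasDerivAt_const _ _
    · rw [h0, h1]
  have hT : T ∈ Icc (-S) S := by
    rw [hS]
    constructor
    · have := neg_abs_le T
      linarith
    · have := le_abs_self T
      linarith
  have h := hE hT
  exact ⟨congrArg Prod.fst h, congrArg Prod.snd h⟩

/-- a subspace of dimension at most two embeds isometrically in `ℂ` -/
theorem exists_isom {n : ℕ} (W : Submodule ℝ (RE n)) (hW : Module.finrank ℝ W ≤ 2) :
    Nonempty (W →ₗᵢ[ℝ] ℂ) := by
  let b := stdOrthonormalBasis ℝ W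
  let c := Complex.orthonormalBasisOneI
  let f : W →ₗ[ℝ] ℂ := b.toBasis.constr ℝ (fun i => c (Fin.castLE hW i))
  have hv : Orthonormal ℝ b.toBasis := by
    rw [OrthonormalBasis.coe_toBasis]
    exact b.orthonormal
  have hf : Orthonormal ℝ (f ∘ b.toBasis) := by
    have e : f ∘ b.toBasis = c ∘ Fin.castLE hW := by
      funext i
      exact b.toBasis.constr_basis ℝ _ i
    rw [e]
    exact c.orthonormal.comp _ (Fin.castLE_injective hW)
  exact ⟨f.isometryOfOrthonormal hv hf⟩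

/-- **G**. Reduction to the complex plane -/
theorem t_G : S_G := by
  intro n C κ φ v hκ hφ hv
  let W : Submodule ℝ (RE n) := Submodule.span ℝ (range ![φ 0, v 0])
  have hW2 : Module.finrank ℝ W ≤ 2 := by
    have h := finrank_range_le_card (R := ℝ) ![φ 0, v 0]
    rw [Fintype.card_fin] at h
    exact h
  have hφ0 : φ 0 ∈ W := Submodule.subset_span ⟨0, rfl⟩
  have hv0 : v 0 ∈ W := Submodule.subset_span ⟨1, rfl⟩
  have hmem : ∀ t, φ t ∈ W ∧ v t ∈ W := by
    intro t
    have h : ∀ u ∈ Wᗮ, ⟪u, φ t⟫ = 0 ∧ ⟪u, v t⟫ = 0 := by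
      intro u hu
      have hd : ∀ (f : ℝ → RE n) (f' : RE n) (s : ℝ), HasDerivAt f f' s →
          HasDerivAt (fun s => ⟪u, f s⟫) ⟪u, f'⟫ s := by
        intro f f' s hf
        exact ((innerSL ℝ u).hasFDerivAt.comp_hasDerivAt s hf)
      refine lin_unique C κ hκ (fun s => ⟪u, φ s⟫) (fun s => ⟪u, v s⟫) (fun s => hd _ _ s (hφ s))
        (fun s => ?_) ?_ ?_ t
      · have h1 := hd _ _ s (hv s)
        rw [inner_sub_right, inner_neg_right, inner_smul_right, inner_smul_right] at h1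
        exact h1
      · exact (Submodule.mem_orthogonal' W u).mp hu _ hφ0
      · exact (Submodule.mem_orthogonal' W u).mp hu _ hv0
    have hWW : Wᗮᗮ = W := Submodule.orthogonal_orthogonal W
    constructor
    · rw [← hWW, Submodule.mem_orthogonal]
      exact fun u hu => (h u hu).1
    · rw [← hWW, Submodule.mem_orthogonal]
      exact fun u hu => (h u hu).2
  obtain ⟨ι⟩ := exists_isom W hW2
  let J : RE n →L[ℝ] ℂ := ι.toContinuousLinearMap ∘L W.orthogonalProjectionOnto
  have hJ : ∀ (w : RE n) (hw : w ∈ W), J w = ι ⟨w, hw⟩ := by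
    intro w hw
    change ι (W.orthogonalProjectionOnto w) = ι ⟨w, hw⟩
    congr 1
    exact Submodule.orthogonalProjectionOnto_mem_subspace_eq_self (⟨w, hw⟩ : W)
  have hJn : ∀ w ∈ W, ‖J w‖ = ‖w‖ := by
    intro w hw
    rw [hJ w hw, ι.norm_map]
    rfl
  have hJi : ∀ a ∈ W, ∀ b ∈ W, (conj (J a) * J b).re = ⟪a, b⟫ := by
    intro a ha b hb
    have h1 : ⟪ι ⟨a, ha⟩, ι ⟨b, hb⟩⟫ = ⟪(⟨a, ha⟩ : W), (⟨b, hb⟩ : W)⟫ := ι.inner_map_map _ _
    rw [Complex.inner] at h1
    rw [hJ a ha, hJ b hb, mul_comm, h1]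
    rfl
  refine ⟨fun t => J (φ t), fun t => J (v t), fun t => J.hasFDerivAt.comp_hasDerivAt t (hφ t),
    fun t => ?_, fun t => hJn _ (hmem t).1, fun t => hJn _ (hmem t).2,
    fun t => hJi _ (hmem t).1 _ (hmem t).2, fun s t h => congrArg J h, fun s t h => congrArg J h⟩
  have h1 : HasDerivAt (fun t => J (v t)) (J (-(C • φ t) - κ t • v t)) t :=
    J.hasFDerivAt.comp_hasDerivAt t (hv t)
  refine h1.congr_deriv ?_
  rw [map_sub, map_neg, map_smul, map_smul, Complex.real_smul, Complex.real_smul]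
  ring

end Pool.Agent.H784.PH
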